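import Pool.Agent.V5helper79.PQ.Stm

/-!
# Project PQ, job AGR: two families of isometries which agree on a line
-/

set_option autoImplicit false

namespace Pool.Agent.V5helper75.PQ

open Filter Topology Pool.Agent.V5helper79.PP.Fam
open scoped RealInnerProductSpace

/-- for one pair of isometries -/
theorem key1 {A B : EuclideanSpace ℝ (Fin 3) ≃ᵢ EuclideanSpace ℝ (Fin 3)} {O x u v : EuclideanSpace ℝ (Fin 3)}
    (huv : LinearIndependent ℝ ![u, v]) (hO : A O = B O)
    (h1 : ⟪lin B (x - O), lin A u⟫ = ⟪x - O, u⟫) (h2 : ⟪lin B (x - O), lin A v⟫ = ⟪x - O, v⟫)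
    {z0 z1 : EuclideanSpace ℝ (Fin 3)} (hz0 : z0 ∈ Submodule.span ℝ (Set.range ![u, v]))
    (hz1 : z1 ∈ (Submodule.span ℝ (Set.range ![u, v]))ᗮ) (hz : x - O = z0 + z1) :
    dist (B x) (A x) = 0 ∨ dist (B x) (A x) = 2 * ‖z1‖ := by
  have h3 : ∀ y, ⟪(lin A).symm (lin B (x - O)), y⟫ = ⟪lin B (x - O), lin A y⟫ := by
    intro y
    rw [← (lin A).inner_map_map, LinearIsometryEquiv.apply_symm_apply]
  have h4 := two_values (w := (lin A).symm (lin B (x - O))) huv (by rw [h3, h1]) (by rw [h3, h2])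
    (by rw [LinearIsometryEquiv.norm_map, LinearIsometryEquiv.norm_map]) hz0 hz1 hz
  have h5 : ‖(lin A).symm (lin B (x - O)) - (x - O)‖ = dist (B x) (A x) := by
    rw [← (lin A).norm_map, map_sub, LinearIsometryEquiv.apply_symm_apply, lin_sub, lin_sub, hO,
      sub_sub_sub_cancel_right, dist_eq_norm]
  rwa [h5] at h4

theorem ev {A B : unitInterval → EuclideanSpace ℝ (Fin 3) ≃ᵢ EuclideanSpace ℝ (Fin 3)}
    (hA : ∀ x, Continuous fun t => A t x) (hB : ∀ x, Continuous fun t => B t x) (t0 : unitInterval)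
    (h0 : ∀ x, A t0 x = B t0 x) {O u v : EuclideanSpace ℝ (Fin 3)} (x : EuclideanSpace ℝ (Fin 3))
    (huv : LinearIndependent ℝ ![u, v]) (hO : ∀ t, A t O = B t O) :
    ∀ᶠ t in 𝓝 t0, ⟪lin (B t) (x - O), lin (A t) u⟫ = ⟪x - O, u⟫ →
      ⟪lin (B t) (x - O), lin (A t) v⟫ = ⟪x - O, v⟫ → A t x = B t x := by
  obtain ⟨z0, hz0, z1, hz1, hz⟩ :=
    Submodule.exists_add_mem_mem_orthogonal (K := Submodule.span ℝ (Set.range ![u, v])) (x - O)
  by_cases hz1' : z1 = 0
  · refine Eventually.of_forall fun t h1 h2 => ?_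
    have h3 := key1 huv (hO t) h1 h2 hz0 hz1 hz
    rw [hz1', norm_zero, mul_zero, or_self, dist_eq_zero] at h3
    exact h3.symm
  · have hcont : Continuous fun t => dist (B t x) (A t x) := (hB x).dist (hA x)
    have hpos : dist (B t0 x) (A t0 x) < 2 * ‖z1‖ := by
      rw [h0 x, dist_self]
      have := norm_pos_iff.2 hz1'
      positivity
    filter_upwards [hcont.continuousAt.eventually_lt_const hpos] with t ht h1 h2
    rcases key1 huv (hO t) h1 h2 hz0 hz1 hz with h | h
    · exact (dist_eq_zero.1 h).symm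
    · exact absurd h ht.ne

theorem t_AGR : Pool.Agent.V5helper79.PQ.S_AGR := by
  intro A B t0 hA hB h0 v w p q hind hv hw
  have hP : LinearIndependent ℝ ![w - v, p - v] := by
    have h := hind.comp ![0, 1] (by decide)
    convert h using 1
    ext i
    fin_cases i <;> rfl
  have hQ : LinearIndependent ℝ ![w - v, q - v] := by
    have h := hind.comp ![0, 2] (by decide)
    convert h using 1
    ext i
    fin_cases i <;> rfl
  have hu : ∀ t, lin (A t) (w - v) = lin (B t) (w - v) := fun t => by rw [lin_sub, lin_sub, hv, hw]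
  filter_upwards [ev hA hB t0 h0 q hP hv, ev hA hB t0 h0 p hQ hv] with t h1 h2 hd x
  have hq : A t q = B t q := by
    refine h1 (by rw [hu, LinearIsometryEquiv.inner_map_map]) ?_
    have e1 : dist (A t p) (B t q) = ‖lin (A t) (p - v) - lin (B t) (q - v)‖ := by
      rw [lin_sub, lin_sub, hv t, sub_sub_sub_cancel_right, dist_eq_norm]
    have e2 : dist p q = ‖(p - v) - (q - v)‖ := by rw [sub_sub_sub_cancel_right, dist_eq_norm]
    have e3 : ‖lin (A t) (p - v) - lin (B t) (q - v)‖ ^ 2 = ‖(p - v) - (q - v)‖ ^ 2 := by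
      rw [← e1, ← e2, hd]
    rw [norm_sub_sq_real, norm_sub_sq_real, LinearIsometryEquiv.norm_map, LinearIsometryEquiv.norm_map] at e3
    rw [real_inner_comm, real_inner_comm (p - v) (q - v)]
    linarith
  have hp : A t p = B t p := by
    refine h2 (by rw [hu, LinearIsometryEquiv.inner_map_map]) ?_
    have e1 : lin (A t) (q - v) = lin (B t) (q - v) := by rw [lin_sub, lin_sub, hv, hq]
    rw [e1, LinearIsometryEquiv.inner_map_map]
  have hspan : Submodule.span ℝ (Set.range ![w - v, p - v, q - v]) = ⊤ := by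
    apply hind.span_eq_top_of_card_eq_finrank'
    rw [finrank_euclideanSpace_fin, Fintype.card_fin]
  have hlin : (lin (A t)).toLinearEquiv.toLinearMap = (lin (B t)).toLinearEquiv.toLinearMap := by
    refine LinearMap.ext_on_range hspan fun i => ?_
    fin_cases i
    · exact hu t
    · show lin (A t) (p - v) = lin (B t) (p - v)
      rw [lin_sub, lin_sub, hv, hp]
    · show lin (A t) (q - v) = lin (B t) (q - v)
      rw [lin_sub, lin_sub, hv, hq]
  have hx : lin (A t) (x - v) = lin (B t) (x - v) := congrFun (congrArg DFunLike.coe hlin) (x - v)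
  rw [lin_sub, lin_sub, hv t] at hx
  exact sub_left_injective hx

end Pool.Agent.V5helper75.PQ
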